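import Pool.Agent.LE.StmtsA
import Pool.Agent.Helper75_Mob.Transfer

/-!
# CNV: in `LocSet` there is decay with probability near one
-/

set_option autoImplicit false

open MeasureTheory ProbabilityTheory Function Filter

open scoped ENNReal BigOperators Topology

noncomputable section

namespace Pool.Agent.LE.H65

open Pool.Agent.Anderson Pool.Agent.Loc Pool.Agent.Mob Pool.Agent.Helper54.Bal
  Pool.Agent.Mob.H75

theorem num (d : ℕ) (C μ : ℝ) (hμ : 0 < μ) : ∃ L₀ : ℕ, ∀ L : ℕ, L₀ ≤ L →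
    (2 * (L : ℝ) + 1) ^ d * (C * Real.exp (-μ * L)) ≤ Real.exp (-(μ / 2) * L) := by
  have h1 : Tendsto (fun L : ℕ => (|C| * (6 / μ) ^ d) *
      ((μ / 2 * (L : ℝ)) ^ d * Real.exp (-(μ / 2 * (L : ℝ))))) atTop (𝓝 ((|C| * (6 / μ) ^ d) * 0)) := by
    apply Tendsto.const_mul
    have h2 : Tendsto (fun L : ℕ => μ / 2 * (L : ℝ)) atTop atTop :=
      Tendsto.const_mul_atTop (by positivity) tendsto_natCast_atTop_atTop
    exact (Real.tendsto_pow_mul_exp_neg_atTop_nhds_zero d).comp h2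
  rw [mul_zero] at h1
  have h3 : ∀ᶠ L : ℕ in atTop, (|C| * (6 / μ) ^ d) *
      ((μ / 2 * (L : ℝ)) ^ d * Real.exp (-(μ / 2 * (L : ℝ)))) < 1 :=
    h1.eventually (gt_mem_nhds one_pos)
  obtain ⟨L₀, hL₀⟩ := eventually_atTop.1 h3
  refine ⟨max L₀ 1, fun L hL => ?_⟩
  have hL1 : (1 : ℝ) ≤ L := by exact_mod_cast (le_trans (le_max_right _ _) hL)
  have h4 := hL₀ L (le_trans (le_max_left _ _) hL)
  have e0 : Real.exp (-μ * L) = Real.exp (-(μ / 2) * L) * Real.exp (-(μ / 2 * (L : ℝ))) := by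
    rw [← Real.exp_add]; congr 1; ring
  have hpos := Real.exp_pos (-(μ / 2) * (L : ℝ))
  have e1 : (2 * (L : ℝ) + 1) ^ d ≤ (6 / μ) ^ d * (μ / 2 * (L : ℝ)) ^ d := by
    rw [← mul_pow]
    apply pow_le_pow_left₀ (by positivity)
    have : 6 / μ * (μ / 2 * (L : ℝ)) = 3 * L := by field_simp; ring
    rw [this]; linarith
  calc (2 * (L : ℝ) + 1) ^ d * (C * Real.exp (-μ * L))
      ≤ (2 * (L : ℝ) + 1) ^ d * (|C| * Real.exp (-μ * L)) := by
        gcongr; exact le_abs_self C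
    _ ≤ ((6 / μ) ^ d * (μ / 2 * (L : ℝ)) ^ d) * (|C| * Real.exp (-μ * L)) := by
        gcongr
    _ = Real.exp (-(μ / 2) * L) * ((|C| * (6 / μ) ^ d) *
      ((μ / 2 * (L : ℝ)) ^ d * Real.exp (-(μ / 2 * (L : ℝ))))) := by rw [e0]; ring
    _ ≤ Real.exp (-(μ / 2) * L) * 1 := by gcongr
    _ = _ := mul_one _

theorem sg_loc (d L : ℕ) (κ E : ℝ) :
    H75.Loc {V : Site d → ℝ | ¬ SG V L κ E 0} (box (0 : Site d) L) := by
  intro V V' h
  simp only [Set.mem_ofPred_eq, SG]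
  rw [RM_congr h E]
  have : ∀ u, gr V (box (0 : Site d) L) E 0 u = gr V' (box (0 : Site d) L) E 0 u :=
    fun u => gr_congr h E 0 u
  simp only [this]

theorem cnv (bdc : BdcStmt) : CnvStmt := by
  intro d C₀ σ E hd hC₀ hσ hB hE
  obtain ⟨h, hh, L₁, hcrit⟩ := hE
  obtain ⟨C, μ, hμ, hdec⟩ := bdc d C₀ σ hd hC₀ hσ hB (Set.Icc (E - h) (E + h)) L₁ hcrit
  obtain ⟨L₀, hL₀⟩ := num d C μ hμ
  refine ⟨μ, μ / 2, L₀, hμ, by positivity, fun L hL => ?_⟩
  refine (PP_le_PL (sg_loc d L μ E)).trans ?_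
  have hsub : {V : Site d → ℝ | ¬ SG V L μ E 0} ⊆
      ⋃ u ∈ (box (0 : Site d) L).filter (fun u => sd 0 u = L),
        {V | ¬ Good V (box (0 : Site d) L) E 0 u (Real.exp (-μ * L))} := by
    intro V hV
    by_contra hcon
    apply hV
    simp only [Set.mem_iUnion, not_exists, Set.mem_ofPred_eq, not_not, Finset.mem_filter] at hcon
    have hall : ∀ u, sd 0 u = L → Good V (box (0 : Site d) L) E 0 u (Real.exp (-μ * L)) :=
      fun u hu => hcon u ⟨mem_box.2 hu.le, hu⟩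
    refine ⟨?_, fun u hu => (hall u hu).2.le⟩
    have hu0 : sd (0 : Site d) (fun _ => (L : ℤ)) = L := by
      unfold sd
      have : ∀ i : Fin d, ((0 : Site d) i - (L : ℤ)).natAbs = L := by
        intro i; simp
      simp only [this]
      exact Finset.sup_const ⟨⟨0, hd⟩, Finset.mem_univ _⟩ _
    exact (hall _ hu0).1
  refine (measure_mono hsub).trans ((measure_biUnion_finset_le _ _).trans ?_)
  have hb : ∀ u ∈ (box (0 : Site d) L).filter (fun u => sd 0 u = L),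
      PL (gl σ) (box (0 : Site d) L) {V | ¬ Good V (box (0 : Site d) L) E 0 u
        (Real.exp (-μ * L))} ≤ ENNReal.ofReal (C * Real.exp (-μ * L)) := by
    intro u hu
    exact hdec 0 u L E ⟨by linarith, by linarith⟩ (Finset.mem_filter.1 hu).2
  refine (Finset.sum_le_sum hb).trans ?_
  rw [Finset.sum_const, nsmul_eq_mul]
  have hcard : ((((box (0 : Site d) L).filter (fun u => sd 0 u = L)).card : ℕ) : ℝ≥0∞) ≤
      ENNReal.ofReal ((2 * (L : ℝ) + 1) ^ d) := by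
    have h1 : ((box (0 : Site d) L).filter (fun u => sd 0 u = L)).card ≤ (2 * L + 1) ^ d := by
      rw [← card_box (0 : Site d) L]
      exact Finset.card_filter_le _ _
    have h2 : ((2 * (L : ℝ) + 1) ^ d) = (((2 * L + 1) ^ d : ℕ) : ℝ) := by push_cast; ring
    rw [h2, ENNReal.ofReal_natCast]
    exact_mod_cast h1
  calc _ ≤ ENNReal.ofReal ((2 * (L : ℝ) + 1) ^ d) * ENNReal.ofReal (C * Real.exp (-μ * L)) := by
        gcongr
    _ = ENNReal.ofReal ((2 * (L : ℝ) + 1) ^ d * (C * Real.exp (-μ * L))) := by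
        exact (ENNReal.ofReal_mul (by positivity : (0 : ℝ) ≤ (2 * (L : ℝ) + 1) ^ d)).symm
    _ ≤ _ := ENNReal.ofReal_le_ofReal (hL₀ L hL)

end Pool.Agent.LE.H65
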